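import Pool.Agent.Q2.TN.Stm

/-!
# Project TN (helper2), jobs A5, A6, B3 (helper214)
-/

set_option autoImplicit false

namespace Q214.TN

open Subgroup Q2.TN

theorem a5 : S_A5 := by
  intro p hp G _ _
  have : Fact p.Prime := ⟨hp⟩
  have h2 : ∀ U P : Subgroup G, U.Normal → IsPGroup p U → IsSyl p P → U ≤ P := by
    intro U P hU hUp hP
    have := hUp.le_sylow_of_normal (hP.1.toSylow hP.2)
    simpa using this
  refine ⟨?_, h2, ?_⟩
  · obtain ⟨P⟩ : Nonempty (Sylow p G) := inferInstance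
    refine ⟨(P : Subgroup G).normalCore, inferInstance, ?_, ?_⟩
    · exact P.isPGroup'.to_le (Subgroup.normalCore_le _)
    · intro L hL hLp
      rw [Subgroup.normal_le_normalCore]
      exact hLp.le_sylow_of_normal P
  · intro U hU hop
    refine ⟨inferInstance, IsPGroup.of_bot, ?_⟩
    intro L hL hLp
    have hk : IsPGroup p (QuotientGroup.mk' U).ker := by
      rw [QuotientGroup.ker_mk']
      exact hop.2.1
    have h3 : L.comap (QuotientGroup.mk' U) ≤ U :=
      hop.2.2 _ (hL.comap _) (hLp.comap_of_ker_isPGroup _ hk)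
    intro x hx
    obtain ⟨g, rfl⟩ := QuotientGroup.mk'_surjective U x
    have : g ∈ U := h3 hx
    rw [Subgroup.mem_bot]
    exact (QuotientGroup.eq_one_iff g).2 this

theorem a6 : S_A6 := by
  intro p hp G _ _ P hP
  have : Fact p.Prime := ⟨hp⟩
  refine ⟨?_, ?_, ?_⟩
  · intro M hM
    refine ⟨hP.1.comap_subtype, fun h => hP.2 (h.trans ?_)⟩
    exact Subgroup.relIndex_dvd_index_of_le hM
  · intro H _ _ f hf
    exact ⟨hP.1.map f, fun h => hP.2 (h.trans (P.index_map_dvd hf))⟩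
  · intro M
    obtain ⟨R⟩ : Nonempty (Sylow p M) := inferInstance
    have e : (((R : Subgroup M).map M.subtype).subgroupOf M) = (R : Subgroup M) := by
      rw [Subgroup.subgroupOf, Subgroup.comap_map_eq_self_of_injective M.subtype_injective]
    refine ⟨(R : Subgroup M).map M.subtype, Subgroup.map_subtype_le _, ?_, ?_⟩
    · rw [e]
      exact ⟨R.isPGroup', R.not_dvd_index⟩
    · obtain ⟨Q, hQ⟩ := (R.isPGroup'.map M.subtype).exists_le_sylow
      obtain ⟨g, hg⟩ := MulAction.exists_smul_eq G Q (hP.1.toSylow hP.2)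
      refine ⟨g, ?_⟩
      have hg' : (Q : Subgroup G).map (MulAut.conj g).toMonoidHom = P := by
        have h5 : ((g • Q : Sylow p G) : Subgroup G) = P := by
          rw [hg]
          exact IsPGroup.toSylow_coe _ _
        exact h5
      rw [← hg']
      exact Subgroup.map_mono hQ

theorem b3 (h1 : S_B1) (h2 : S_B2) : S_B3 := by
  intro p hp G _ _ h
  have : Fact p.Prime := ⟨hp⟩
  obtain ⟨P0⟩ : Nonempty (Sylow p G) := inferInstance
  obtain ⟨P, hPe⟩ : ∃ P : Subgroup G, P = (P0 : Subgroup G) := ⟨_, rfl⟩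
  have hP : IsSyl p P := by
    rw [hPe]
    exact ⟨P0.isPGroup', P0.not_dvd_index⟩
  by_cases hPb : P = ⊥
  · refine ⟨⊤, inferInstance, ?_, 0, ?_⟩
    · have h3 := hP.2
      rw [hPb, Subgroup.index_bot] at h3
      rw [Nat.card_congr Subgroup.topEquiv.toEquiv]
      exact ((Nat.Prime.coprime_iff_not_dvd hp).2 h3).symm
    · simp
  refine h1 p hp G P hP ?_
  intro x hx y hy hxy
  obtain ⟨g, hg⟩ := isConj_iff.1 hxy
  have hS : IsSyl p (P.map (MulAut.conj g).toMonoidHom) :=
    (a6 p hp G P hP).2.1 G _ (MulAut.conj g).surjective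
  obtain ⟨c, hc, hcS⟩ := h2 p hp G h _ P hS hP
  have hyS : y ∈ P.map (MulAut.conj g).toMonoidHom := ⟨x, hx, by simpa using hg⟩
  have hcy : y * c = c * y := (Subgroup.mem_centralizer_iff.1 hc) y ⟨hyS, hy⟩
  have hn : c * g ∈ Nm P := by
    rw [Subgroup.mem_normalizer_iff]
    intro n
    constructor
    · intro hn
      have h3 : c * (g * n * g⁻¹) * c⁻¹ ∈ P := by
        rw [← hcS]
        exact ⟨g * n * g⁻¹, ⟨n, hn, rfl⟩, rfl⟩
      have e : c * g * n * (c * g)⁻¹ = c * (g * n * g⁻¹) * c⁻¹ := by group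
      rw [e]
      exact h3
    · intro hn
      have hn' : c * g * n * (c * g)⁻¹ ∈ P := hn
      rw [← hcS] at hn'
      obtain ⟨s, ⟨m, hm, hms⟩, hs⟩ := hn'
      have hms' : g * m * g⁻¹ = s := hms
      have hs' : c * s * c⁻¹ = c * g * n * (c * g)⁻¹ := hs
      have e : m = n := by
        have e1 : c * (g * m * g⁻¹) * c⁻¹ = c * g * n * (c * g)⁻¹ := by rw [hms', hs']
        have e2 : (c * g) * m * (c * g)⁻¹ = (c * g) * n * (c * g)⁻¹ := by
          rw [← e1]; group
        exact mul_left_cancel (mul_right_cancel e2)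
      rw [← e]
      exact hm
  obtain ⟨N, hN, hNc, k, hNk⟩ := h P hP.1 hPb
  have hPn : P ≤ Nm P := Subgroup.le_normalizer
  set P' : Subgroup (Nm P) := P.subgroupOf (Nm P) with hP'
  have hP'n : P'.Normal := Subgroup.normal_in_normalizer
  have hP's : IsSyl p P' := (a6 p hp G P hP).1 _ hPn
  have htop : P' ⊔ N = ⊤ := by
    rw [← Subgroup.index_eq_one]
    have d1 : (P' ⊔ N).index ∣ P'.index := Subgroup.index_dvd_of_le le_sup_left
    have d2 : (P' ⊔ N).index ∣ p ^ k := hNk ▸ Subgroup.index_dvd_of_le le_sup_right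
    obtain ⟨j, -, hj⟩ := (Nat.dvd_prime_pow hp).1 d2
    rcases Nat.eq_zero_or_pos j with h0 | h0
    · rw [hj, h0, pow_zero]
    · exfalso
      apply hP's.2
      refine dvd_trans ?_ d1
      rw [hj]
      exact dvd_pow_self p h0.ne'
  have hdis : Disjoint P' N := by
    obtain ⟨n, hn'⟩ := IsPGroup.iff_card.1 hP's.1
    apply Subgroup.disjoint_of_coprime_natCard
    rw [hn']
    exact Nat.Coprime.pow_left n hNc.symm
  have hmem : (⟨c * g, hn⟩ : Nm P) ∈ P' ⊔ N := by
    rw [htop]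
    trivial
  obtain ⟨u, hu, o, ho, huo⟩ := Subgroup.mem_sup_of_normal_right.1 hmem
  have hcomm : o * ⟨x, hPn hx⟩ = ⟨x, hPn hx⟩ * o :=
    (Subgroup.commute_of_normal_of_disjoint P' N hP'n hN hdis ⟨x, hPn hx⟩ o hx ho).symm
  refine ⟨u, hu, ?_⟩
  have e1 : (u : G) * (o : G) = c * g := congrArg Subtype.val huo
  have e2 : (o : G) * x = x * (o : G) := congrArg Subtype.val hcomm
  have e3 : c * y * c⁻¹ = y := by
    rw [← hcy, mul_inv_cancel_right]
  calc (u : G) * x * (u : G)⁻¹ = (u : G) * (x * (o : G)) * (o : G)⁻¹ * (u : G)⁻¹ := by group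
    _ = ((u : G) * (o : G)) * x * ((u : G) * (o : G))⁻¹ := by rw [← e2]; group
    _ = c * (g * x * g⁻¹) * c⁻¹ := by rw [e1]; group
    _ = y := by rw [hg, e3]

end Q214.TN
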